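import Pool.Agent.Q301.HC.Hyp
set_option autoImplicit false

/-!
# No common hypercyclic vector for the operators `aT + bI` on a real space

For every continuous linear operator `T` of a nonzero real Hausdorff locally convex space (in
particular of a real Fréchet space) and every vector `x`, the set of all `(a, b)` for which `x` is
hypercyclic for `aT + bI` has planar Lebesgue measure zero. In particular no vector is hypercyclic
for all the operators `aT + bI` with `a > 0` and `b` real.
-/

namespace Pool.Agent.Results.MP_e13f12_an.NoCommonHypercyclicVector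

open Set MeasureTheory Pool.Agent.Q301.HC
open scoped ENNReal

variable {X : Type*} [AddCommGroup X] [Module ℝ X] [TopologicalSpace X]
  [IsTopologicalAddGroup X] [ContinuousSMul ℝ X] [LocallyConvexSpace ℝ X] [T2Space X]
  [Nontrivial X]

/-- the vector `x` is hypercyclic for the operator `S` -/
def HypercyclicVector (S : X →L[ℝ] X) (x : X) : Prop :=
  Dense (Set.range fun n : ℕ => (S ^ n) x)

lemma core (T : X →L[ℝ] X) (x : X) :
    volume {z : ℝ × ℝ | (0 < z.1 ∧ z.1 < 1) ∧ (1 < z.2 ∧ z.2 < 2) ∧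
      HypercyclicVector (z.2 • (T + z.1 • ContinuousLinearMap.id ℝ X)) x} = 0 := by
  set H := {z : ℝ × ℝ | (0 < z.1 ∧ z.1 < 1) ∧ (1 < z.2 ∧ z.2 < 2) ∧
      HypercyclicVector (z.2 • (T + z.1 • ContinuousLinearMap.id ℝ X)) x} with hH
  rcases eq_or_ne x 0 with rfl | hx
  · have : H = ∅ := by
      refine eq_empty_iff_forall_notMem.2 fun z hz => ?_
      obtain ⟨y, hy⟩ := exists_ne (0 : X)
      obtain ⟨w, ⟨n, rfl⟩, hw⟩ := hz.2.2.exists_mem_open (isOpen_compl_singleton (x := (0 : X)))
        ⟨y, hy⟩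
      exact hw (map_zero _)
    rw [this, measure_empty]
  · obtain ⟨f, hf⟩ := SeparatingDual.exists_ne_zero (R := ℝ) hx
    set c : ℕ → ℝ := fun k => f ((T ^ k) x) with hc
    have hc0 : c 0 = f x := rfl
    have hpos : 0 < |c 0| := by rw [hc0]; exact abs_pos.2 hf
    set d : ℝ := min (1 / 8) (|c 0| / (2 * (|c 1| + 1))) with hd
    have hd0 : 0 < d := lt_min (by norm_num) (by positivity)
    have hd1 : d * |c 1| < |c 0| := by
      calc d * |c 1| ≤ |c 0| / (2 * (|c 1| + 1)) * |c 1| :=
            mul_le_mul_of_nonneg_right (min_le_right _ _) (abs_nonneg _)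
        _ = |c 0| * (|c 1| / (2 * (|c 1| + 1))) := by ring
        _ < |c 0| * 1 := by
            refine mul_lt_mul_of_pos_left ?_ hpos
            rw [div_lt_one (by positivity)]
            linarith [abs_nonneg (c 1)]
        _ = |c 0| := mul_one _
    have hbound : ∀ K : ℕ, volume H ≤ ENNReal.ofReal (108 / 2 ^ K) := by
      intro K
      refine (measure_mono ?_).trans
        (tail_E (e := d / 4) (by linarith) hd0 (min_le_left _ _) hd1 K)
      rintro ⟨b, a⟩ ⟨hb, ha, hden⟩
      obtain ⟨m, hm, hE⟩ := window (e := d / 4) (by positivity) ha hb hf hden (2 ^ K)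
      exact mem_iUnion₂.2 ⟨m, hm, hE⟩
    have hlim : Filter.Tendsto (fun K : ℕ => ENNReal.ofReal (108 / 2 ^ K)) Filter.atTop
        (nhds (ENNReal.ofReal 0)) := by
      refine ENNReal.tendsto_ofReal ?_
      have := (tendsto_pow_atTop_nhds_zero_of_lt_one (r := (1 / 2 : ℝ)) (by norm_num)
        (by norm_num)).const_mul 108
      rw [mul_zero] at this
      refine this.congr fun K => ?_
      rw [one_div, inv_pow, div_eq_mul_inv]
    rw [ENNReal.ofReal_zero] at hlim
    exact le_antisymm (ge_of_tendsto' hlim hbound) bot_le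

lemma null (T : X →L[ℝ] X) (x : X) :
    volume {z : ℝ × ℝ | HypercyclicVector (z.1 • T + z.2 • ContinuousLinearMap.id ℝ X) x} = 0 := by
  let g : ℚ × ℚ → ℝ × ℝ → ℝ × ℝ := fun r z =>
    (z.2 * (r.1 : ℝ), z.2 * ((r.1 : ℝ) * (r.2 : ℝ) + z.1))
  let H : ℚ × ℚ → Set (ℝ × ℝ) := fun r =>
    {z : ℝ × ℝ | (0 < z.1 ∧ z.1 < 1) ∧ (1 < z.2 ∧ z.2 < 2) ∧
      HypercyclicVector (z.2 • (((r.1 : ℝ) • (T + (r.2 : ℝ) • ContinuousLinearMap.id ℝ X)) +
        z.1 • ContinuousLinearMap.id ℝ X)) x}
  have hsub : {z : ℝ × ℝ | HypercyclicVector (z.1 • T + z.2 • ContinuousLinearMap.id ℝ X) x} ⊆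
      ({0} ×ˢ univ) ∪ ⋃ r : ℚ × ℚ, g r '' H r := by
    rintro ⟨a, b⟩ hab
    rcases eq_or_ne a 0 with rfl | ha
    · exact Or.inl ⟨rfl, trivial⟩
    · right
      obtain ⟨α, hα1, hα2⟩ : ∃ α : ℚ, 1 < a / (α : ℝ) ∧ a / (α : ℝ) < 2 := by
        rcases lt_or_gt_of_ne ha with h | h
        · obtain ⟨α, h1, h2⟩ := exists_rat_btwn (show a < a / 2 by linarith)
          have h3 : (α : ℝ) < 0 := by linarith
          exact ⟨α, (lt_div_iff_of_neg h3).2 (by linarith), (div_lt_iff_of_neg h3).2 (by linarith)⟩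
        · obtain ⟨α, h1, h2⟩ := exists_rat_btwn (show a / 2 < a by linarith)
          have h3 : 0 < (α : ℝ) := by linarith
          exact ⟨α, (lt_div_iff₀ h3).2 (by linarith), (div_lt_iff₀ h3).2 (by linarith)⟩
      have hα0 : (α : ℝ) ≠ 0 := by
        intro h0
        rw [h0, div_zero] at hα1
        linarith
      obtain ⟨τ, hτ1, hτ2⟩ : ∃ τ : ℚ, 0 < (α : ℝ) * (b / a - τ) ∧ (α : ℝ) * (b / a - τ) < 1 := by
        have hcont : Continuous fun t : ℝ => (α : ℝ) * (b / a - t) := by fun_prop
        have ho : IsOpen {t : ℝ | 0 < (α : ℝ) * (b / a - t) ∧ (α : ℝ) * (b / a - t) < 1} :=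
          (isOpen_lt continuous_const hcont).and (isOpen_lt hcont continuous_const)
        obtain ⟨τ, hτ⟩ := Rat.denseRange_cast.exists_mem_open ho
          ⟨b / a - 1 / (2 * (α : ℝ)), by
            have : (α : ℝ) * (b / a - (b / a - 1 / (2 * (α : ℝ)))) = 1 / 2 := by
              field_simp
              ring
            simp only [mem_ofPred_eq, this]
            norm_num⟩
        exact ⟨τ, hτ⟩
      refine mem_iUnion.2 ⟨(α, τ), ((α : ℝ) * (b / a - τ), a / (α : ℝ)), ⟨⟨hτ1, hτ2⟩,
        ⟨hα1, hα2⟩, ?_⟩, ?_⟩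
      · have : (a / (α : ℝ)) • (((α : ℝ) • (T + (τ : ℝ) • ContinuousLinearMap.id ℝ X)) +
          ((α : ℝ) * (b / a - τ)) • ContinuousLinearMap.id ℝ X) =
            a • T + b • ContinuousLinearMap.id ℝ X := by
          rw [smul_add, smul_add, smul_add, smul_smul, smul_smul, smul_smul, smul_smul, add_assoc,
            ← add_smul]
          congr 2
          · field_simp
          · field_simp
            ring
        show HypercyclicVector ((a / (α : ℝ)) • (((α : ℝ) • (T + (τ : ℝ) •
          ContinuousLinearMap.id ℝ X)) +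
            ((α : ℝ) * (b / a - τ)) • ContinuousLinearMap.id ℝ X)) x
        rw [this]
        exact hab
      · show (a / (α : ℝ) * (α : ℝ), a / (α : ℝ) * ((α : ℝ) * (τ : ℝ) + (α : ℝ) * (b / a - τ))) =
          (a, b)
        congr 1
        · field_simp
        · field_simp
          ring
  refine measure_mono_null hsub (measure_union_null ?_ (measure_iUnion_null fun r => ?_))
  · rw [Measure.volume_eq_prod, Measure.prod_prod, Real.volume_singleton, zero_mul]
  · refine addHaar_image_eq_zero_of_differentiableOn_of_addHaar_eq_zero volume ?_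
      (core ((r.1 : ℝ) • (T + (r.2 : ℝ) • ContinuousLinearMap.id ℝ X)) x)
    have : Differentiable ℝ (g r) := by
      show Differentiable ℝ fun z : ℝ × ℝ =>
        (z.2 * (r.1 : ℝ), z.2 * ((r.1 : ℝ) * (r.2 : ℝ) + z.1))
      fun_prop
    exact this.differentiableOn

/-- For every operator `T` of a nonzero real Hausdorff locally convex space, no vector is
hypercyclic for all `aT + bI` with `a > 0` and `b` real; moreover, for every vector `x`, the set of
all real `(a, b)` such that `x` is hypercyclic for `aT + bI` has planar Lebesgue measure zero. -/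
theorem result (T : X →L[ℝ] X) :
    (¬ ∃ x : X, ∀ a b : ℝ, 0 < a →
      HypercyclicVector (a • T + b • ContinuousLinearMap.id ℝ X) x) ∧
    ∀ x : X, volume {z : ℝ × ℝ |
      HypercyclicVector (z.1 • T + z.2 • ContinuousLinearMap.id ℝ X) x} = 0 := by
  refine ⟨?_, null T⟩
  rintro ⟨x, hx⟩
  have h1 : (Ioo (0 : ℝ) 1 ×ˢ Ioo (0 : ℝ) 1) ⊆ {z : ℝ × ℝ |
      HypercyclicVector (z.1 • T + z.2 • ContinuousLinearMap.id ℝ X) x} :=
    fun z hz => hx z.1 z.2 hz.1.1
  have h2 := measure_mono_null h1 (null T x)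
  rw [Measure.volume_eq_prod, Measure.prod_prod, Real.volume_Ioo] at h2
  norm_num at h2

end Pool.Agent.Results.MP_e13f12_an.NoCommonHypercyclicVector
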